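import Mathlib

/-!
A kernel-checkable certificate format for the word problem.

A *word* is a list of letters `L` (four generators and their inverses).  A certificate that a word
`w` is trivial modulo a list of relators is a stream of tokens: letters and relator insertions.
The stream with the relator tokens deleted has to reduce freely to the empty word, the stream with
the relators inserted has to reduce freely to `w`.
-/

set_option autoImplicit false

namespace Pool.Agent.Helper987.Cert24

/-- letters -/
inductive L | a | A | b | B | c | C | d | D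
deriving DecidableEq

variable {G : Type*} [Group G]

/-- value of a letter -/
def evL (g : Nat → G) : L → G
  | .a => g 0
  | .A => (g 0)⁻¹
  | .b => g 1
  | .B => (g 1)⁻¹
  | .c => g 2
  | .C => (g 2)⁻¹
  | .d => g 3
  | .D => (g 3)⁻¹

/-- value of a word -/
def ev (g : Nat → G) (w : List L) : G := (w.map (evL g)).prod

/-- inverse letter -/
def L.inv : L → L
  | .a => .A | .A => .a | .b => .B | .B => .b | .c => .C | .C => .c | .d => .D | .D => .d

/-- inverse word -/
def invW (w : List L) : List L := (w.map L.inv).reverse

theorem evL_inv (g : Nat → G) (l : L) : evL g l.inv = (evL g l)⁻¹ := by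
  cases l <;> simp [evL, L.inv]

@[simp] theorem ev_nil (g : Nat → G) : ev g [] = 1 := rfl

@[simp] theorem ev_cons (g : Nat → G) (l : L) (w : List L) : ev g (l :: w) = evL g l * ev g w := by
  simp [ev]

@[simp] theorem ev_append (g : Nat → G) (u v : List L) : ev g (u ++ v) = ev g u * ev g v := by
  simp [ev]

@[simp] theorem ev_invW (g : Nat → G) (w : List L) : ev g (invW w) = (ev g w)⁻¹ := by
  induction w with
  | nil => simp [invW]
  | cons l w ih =>
    have : invW (l :: w) = invW w ++ [l.inv] := by simp [invW]
    rw [this, ev_append, ih]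
    simp [evL_inv]

/-- push a letter on a (reversed) reduced word -/
def push : L → List L → List L
  | .a, .A :: t => t
  | .a, s => .a :: s
  | .A, .a :: t => t
  | .A, s => .A :: s
  | .b, .B :: t => t
  | .b, s => .b :: s
  | .B, .b :: t => t
  | .B, s => .B :: s
  | .c, .C :: t => t
  | .c, s => .c :: s
  | .C, .c :: t => t
  | .C, s => .C :: s
  | .d, .D :: t => t
  | .d, s => .d :: s
  | .D, .d :: t => t
  | .D, s => .D :: s

/-- value of a stack -/
def evS (g : Nat → G) : List L → G
  | [] => 1
  | l :: t => evS g t * evL g l

theorem evS_push (g : Nat → G) (l : L) (s : List L) : evS g (push l s) = evS g s * evL g l := by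
  unfold push
  split <;> simp [evS, evL]

/-- forcing evaluation of a list -/
def force {α : Type} (s : List L) (k : List L → α) : α :=
  match s with
  | [] => k []
  | m :: t => k (m :: t)

theorem force_eq {α : Type} (s : List L) (k : List L → α) : force s k = k s := by
  cases s <;> rfl

/-- push a word -/
def runW : List L → List L → List L
  | [], s => s
  | l :: w, s => force (push l s) (fun s' => runW w s')

theorem evS_runW (g : Nat → G) (w s : List L) : evS g (runW w s) = evS g s * ev g w := by
  induction w generalizing s with
  | nil => simp [runW]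
  | cons l w ih => rw [runW, force_eq, ih, evS_push, ev_cons, mul_assoc]

/-- letters as numbers -/
def L.num : Nat → L
  | 0 => .a | 1 => .A | 2 => .b | 3 => .B | 4 => .c | 5 => .C | 6 => .d | _ => .D

/-- decode a chunk of tokens (base 64 digits, each digit is the token plus one) -/
def dec : Nat → Nat → List Nat
  | 0, _ => []
  | f + 1, n => bif Nat.beq n 0 then [] else (n % 64) :: dec f (n / 64)

/-- relator (or inverse relator) number `n` -/
def getR : List (List L) → Nat → List L
  | [], _ => []
  | r :: _, 0 => r
  | r :: _, 1 => invW r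
  | _ :: rs, n + 2 => getR rs n

/-- run a stream of tokens; tokens `1..8` are letters, tokens `9 + 2 i`, `10 + 2 i` are relator `i`
and its inverse. -/
def runT (rels : List (List L)) : List Nat → List L → List L → (List L → List L → Bool) → Bool
  | [], s1, s2, k => k s1 s2
  | n :: ts, s1, s2, k =>
    bif Nat.ble n 8 then
      force (push (L.num (n - 1)) s1) fun s1' =>
        force (push (L.num (n - 1)) s2) fun s2' => runT rels ts s1' s2' k
    else
      force (runW (getR rels (n - 9)) s1) fun s1' => runT rels ts s1' s2 k

/-- run a list of chunks -/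
def runC (rels : List (List L)) (tgt : List L) : List Nat → List L → List L → Bool
  | [], s1, s2 => decide (s1 = tgt) && s2.isEmpty
  | n :: ns, s1, s2 => runT rels (dec 64 n) s1 s2 fun s1' s2' => runC rels tgt ns s1' s2'

/-- check a certificate -/
def check (rels : List (List L)) (w : List L) (cert : List Nat) : Bool :=
  runC rels (runW w []) cert [] []

theorem ev_getR (g : Nat → G) (rels : List (List L)) (h : ∀ r ∈ rels, ev g r = 1) (n : Nat) :
    ev g (getR rels n) = 1 := by
  induction rels, n using getR.induct with
  | case1 n => simp [getR]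
  | case2 r rs => simpa [getR] using h r (by simp)
  | case3 r rs => simp [getR, h r (by simp)]
  | case4 r rs n ih => rw [getR]; exact ih (fun r' hr' => h r' (by simp [hr']))

theorem runT_sound (g : Nat → G) (rels : List (List L)) (h : ∀ r ∈ rels, ev g r = 1)
    (ts : List Nat) (s1 s2 : List L) (k : List L → List L → Bool)
    (hk : runT rels ts s1 s2 k = true) :
    ∃ s1' s2' : List L, ∃ X : G, k s1' s2' = true ∧ evS g s1' = evS g s1 * X ∧
      evS g s2' = evS g s2 * X := by
  induction ts generalizing s1 s2 with
  | nil => exact ⟨s1, s2, 1, hk, by simp, by simp⟩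
  | cons n ts ih =>
    rw [runT] at hk
    cases hn : Nat.ble n 8 with
    | true =>
      rw [hn, cond_true, force_eq, force_eq] at hk
      obtain ⟨s1', s2', X, h1, h2, h3⟩ := ih _ _ hk
      refine ⟨s1', s2', evL g (L.num (n - 1)) * X, h1, ?_, ?_⟩
      · rw [h2, evS_push, mul_assoc]
      · rw [h3, evS_push, mul_assoc]
    | false =>
      rw [hn, cond_false, force_eq] at hk
      obtain ⟨s1', s2', X, h1, h2, h3⟩ := ih _ _ hk
      refine ⟨s1', s2', X, h1, ?_, h3⟩
      rw [h2, evS_runW, ev_getR g rels h, mul_one]

theorem runC_sound (g : Nat → G) (rels : List (List L)) (h : ∀ r ∈ rels, ev g r = 1)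
    (tgt : List L) (cs : List Nat) (s1 s2 : List L) (hk : runC rels tgt cs s1 s2 = true) :
    ∃ X : G, evS g tgt = evS g s1 * X ∧ 1 = evS g s2 * X := by
  induction cs generalizing s1 s2 with
  | nil =>
    rw [runC, Bool.and_eq_true, decide_eq_true_eq, List.isEmpty_iff] at hk
    refine ⟨1, ?_, ?_⟩
    · rw [hk.1, mul_one]
    · rw [hk.2]; simp [evS]
  | cons n cs ih =>
    rw [runC] at hk
    obtain ⟨s1', s2', X, h1, h2, h3⟩ := runT_sound g rels h _ _ _ _ hk
    obtain ⟨Y, h4, h5⟩ := ih _ _ h1
    refine ⟨X * Y, ?_, ?_⟩
    · rw [h4, h2, mul_assoc]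
    · rw [h5, h3, mul_assoc]

/-- Soundness of the certificates. -/
theorem sound (g : Nat → G) (rels : List (List L)) (h : ∀ r ∈ rels, ev g r = 1)
    (w : List L) (cert : List Nat) (hc : check rels w cert = true) : ev g w = 1 := by
  obtain ⟨X, h1, h2⟩ := runC_sound g rels h _ _ _ _ hc
  rw [evS_runW] at h1
  simp only [evS, one_mul] at h1 h2
  rw [h1, ← h2]

end Pool.Agent.Helper987.Cert24
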