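import Pool.Agent.Helper987.Data24b

/-! Kernel checks of the certificates. -/

set_option autoImplicit false

namespace Pool.Agent.Helper987.Cert24

theorem k_x2 : check relsB (Xw ++ Xw) c_x2 = true := by decide +kernel
theorem k_xa : check relsB ([.A] ++ Xw ++ [.a] ++ invW Xw) c_xa = true := by decide +kernel
theorem k_xb : check relsB ([.B] ++ Xw ++ [.b] ++ invW Xw) c_xb = true := by decide +kernel
theorem k_yy : check relsB (Yw ++ Yw) c_yy = true := by decide +kernel
theorem k_ya : check relsB ([.a] ++ Yw ++ [.A] ++ invW Yw) c_ya = true := by decide +kernel
theorem k_w : check relsB ([.C] ++ Yw ++ [.c] ++ [.B] ++ invW Yw ++ [.b]) c_w = true := by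
  decide +kernel
theorem k_Q : check relsB (Qh.flatMap subY) c_Q = true := by decide +kernel
theorem k_R6 : check relsB (R6h.flatMap subY) c_R6 = true := by decide +kernel

/-- the word `x y x⁻¹ y` where `y` is the letter `c` -/
def DhY : List L := Xw ++ [.c] ++ invW Xw ++ [.c]

theorem k_I1 : check relsY (DhY ++ DhY) c_I1h = true := by decide +kernel
theorem k_I2 : check relsY ([.c] ++ [.B, .c, .b] ++ [.C] ++ [.B, .c, .b] ++ [.B, .B] ++
    invW DhY ++ [.b, .b]) c_I2h = true := by decide +kernel

/-- letters for the generators -/
def gl : Nat → L
  | 0 => .a | 1 => .b | _ => .c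

/-- the word saying that conjugating `d ^ ri` by `l` gives `d ^ rj` -/
def conjW (ri : List L) (l : L) (rj : List L) : List L :=
  invW (ri ++ [l]) ++ [.d] ++ (ri ++ [l]) ++ (invW rj ++ [.D] ++ rj)

/-- the word saying `ri * l = p * rj` -/
def cosW (ri : List L) (l : L) (rj p : List L) : List L :=
  ri ++ [l] ++ invW rj ++ invW p

def tb (t : List (List Nat)) (i k : Nat) : Nat := (t.getD i []).getD k 0

theorem k_E : (List.range 5).all (fun i => (List.range 3).all (fun k =>
    check relsE (conjW (repsE.getD i []) (gl k) (repsE.getD (tb tabE i k) []))
      ((certE.getD i []).getD k []))) = true := by decide +kernel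

theorem t_E : (List.range 5).all (fun i => (List.range 3).all (fun k =>
    decide (tb tabE i k < 5) && (List.range 5).any (fun j => decide (tb tabE j k = i)))) = true := by
  decide +kernel

theorem k_X : (List.range 18).all (fun i => (List.range 3).all (fun k =>
    check relsX (conjW (repsX.getD i []) (gl k) (repsX.getD (tb tabX i k) []))
      ((certX.getD i []).getD k []))) = true := by decide +kernel

theorem t_X : (List.range 18).all (fun i => (List.range 3).all (fun k =>
    decide (tb tabX i k < 18) && (List.range 18).any (fun j => decide (tb tabX j k = i)))) = true := by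
  decide +kernel

theorem k_C : (List.range 18).all (fun i => (List.range 3).all (fun k =>
    check rels3 (cosW (repsC.getD i []) (gl k) (repsC.getD (tb tabC i k) [])
      ((labC.getD i []).getD k [])) ((certC.getD i []).getD k []))) = true := by decide +kernel

theorem t_C : (List.range 18).all (fun i => (List.range 3).all (fun k =>
    decide (tb tabC i k < 18) && (List.range 18).any (fun j => decide (tb tabC j k = i)))) = true := by
  decide +kernel

theorem k_P : (List.range 10).all (fun i => (List.range 2).all (fun k =>
    check relsP (cosW (repsP.getD i []) (gl k) (repsP.getD (tb tabP i k) [])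
      ((labP.getD i []).getD k [])) ((certP.getD i []).getD k []))) = true := by decide +kernel

theorem t_P : (List.range 10).all (fun i => (List.range 2).all (fun k =>
    decide (tb tabP i k < 10) && (List.range 10).any (fun j => decide (tb tabP j k = i)))) = true := by
  decide +kernel

end Pool.Agent.Helper987.Cert24
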