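import Mathlib

/-! Group theory: finiteness from cosets, and Dietzmann's lemma for involutions. -/

set_option autoImplicit false

namespace Pool.Agent.Helper987.Cert24

variable {G : Type*} [Group G]

/-- Finiteness of the subgroup generated by `gens` from a finite closed set of cosets of a finite
subgroup. -/
theorem finite_closure_of_cosets (H : Subgroup G) [Finite H] (gens : Set G) (n : ℕ) (s : ℕ → G)
    (hn : 0 < n) (hs0 : s 0 = 1)
    (h1 : ∀ i < n, ∀ σ ∈ gens, ∃ j < n, s i * σ * (s j)⁻¹ ∈ H)
    (h2 : ∀ i < n, ∀ σ ∈ gens, ∃ j < n, s j * σ * (s i)⁻¹ ∈ H) :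
    Finite (Subgroup.closure gens) := by
  have key : ∀ x ∈ Subgroup.closure gens, ∃ i < n, x * (s i)⁻¹ ∈ H := by
    intro x hx
    induction hx using Subgroup.closure_induction_right with
    | one => exact ⟨0, hn, by simp [hs0, H.one_mem]⟩
    | mul_right x _ y hy ih =>
      obtain ⟨i, hi, hxi⟩ := ih
      obtain ⟨j, hj, hij⟩ := h1 i hi y hy
      refine ⟨j, hj, ?_⟩
      have := H.mul_mem hxi hij
      simpa [mul_assoc] using this
    | mul_inv_cancel x _ y hy ih =>
      obtain ⟨i, hi, hxi⟩ := ih
      obtain ⟨j, hj, hij⟩ := h2 i hi y hy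
      refine ⟨j, hj, ?_⟩
      have := H.mul_mem hxi (H.inv_mem hij)
      simpa [mul_assoc] using this
  have hfin : (Set.range (fun p : H × Fin n => (p.1 : G) * s p.2)).Finite := Set.finite_range _
  have hsub : ((Subgroup.closure gens : Subgroup G) : Set G) ⊆
      Set.range (fun p : H × Fin n => (p.1 : G) * s p.2) := by
    intro x hx
    obtain ⟨i, hi, hxi⟩ := key x hx
    exact ⟨(⟨_, hxi⟩, ⟨i, hi⟩), by simp⟩
  exact (hfin.subset hsub).to_subtype

/-- conjugation closedness from generators -/
theorem conj_closed (gens : Set G) (hgen : Subgroup.closure gens = ⊤) (n : ℕ) (s : ℕ → G)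
    (h1 : ∀ i < n, ∀ σ ∈ gens, ∃ j < n, σ⁻¹ * s i * σ = s j)
    (h2 : ∀ i < n, ∀ σ ∈ gens, ∃ j < n, σ⁻¹ * s j * σ = s i) :
    ∀ x : G, ∀ i < n, ∃ j < n, x * s i * x⁻¹ = s j := by
  have key : ∀ x ∈ Subgroup.closure gens, ∀ i < n, ∃ j < n, x * s i * x⁻¹ = s j := by
    intro x hx
    induction hx using Subgroup.closure_induction_right with
    | one => intro i hi; exact ⟨i, hi, by simp⟩
    | mul_right x _ y hy ih =>
      intro i hi
      obtain ⟨j, hj, hij⟩ := h2 i hi y hy
      obtain ⟨k, hk, hjk⟩ := ih j hj
      refine ⟨k, hk, ?_⟩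
      rw [← hjk, ← hij]
      group
    | mul_inv_cancel x _ y hy ih =>
      intro i hi
      obtain ⟨j, hj, hij⟩ := h1 i hi y hy
      obtain ⟨k, hk, hjk⟩ := ih j hj
      refine ⟨k, hk, ?_⟩
      rw [← hjk, ← hij]
      group
  intro x
  exact key x (by rw [hgen]; trivial)

section Dietzmann

variable (S : Set G) (hinv : ∀ s ∈ S, s * s = 1) (hc : ∀ x : G, ∀ s ∈ S, x * s * x⁻¹ ∈ S)

include hc in
/-- moving one occurrence of `s` to the front -/
theorem move_front (s : G) (l : List G) (hl : ∀ t ∈ l, t ∈ S) (hs : s ∈ l) :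
    ∃ l' : List G, (∀ t ∈ l', t ∈ S) ∧ l'.length + 1 = l.length ∧ l.prod = s * l'.prod := by
  induction l with
  | nil => simp at hs
  | cons t l ih =>
    by_cases hts : s = t
    · subst hts
      exact ⟨l, fun u hu => hl u (by simp [hu]), by simp, by simp⟩
    · have hs' : s ∈ l := by
        rcases List.mem_cons.1 hs with h | h
        · exact absurd h hts
        · exact h
      obtain ⟨l', h1, h2, h3⟩ := ih (fun u hu => hl u (by simp [hu])) hs'
      refine ⟨(s⁻¹ * t * s) :: l', ?_, ?_, ?_⟩
      · intro u hu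
        rcases List.mem_cons.1 hu with h | h
        · rw [h]
          have := hc s⁻¹ t (hl t (by simp))
          simpa using this
        · exact h1 u h
      · simp [← h2]
      · simp only [List.prod_cons]
        rw [h3]
        group

include hinv hc in
/-- a word with a repetition can be shortened -/
theorem shorten (l : List G) (hl : ∀ t ∈ l, t ∈ S) (hd : ¬ l.Nodup) :
    ∃ l' : List G, (∀ t ∈ l', t ∈ S) ∧ l'.length < l.length ∧ l.prod = l'.prod := by
  induction l with
  | nil => simp at hd
  | cons t l ih =>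
    rw [List.nodup_cons, not_and_or, not_not] at hd
    rcases hd with h | h
    · obtain ⟨l', h1, h2, h3⟩ := move_front S hc t l (fun u hu => hl u (by simp [hu])) h
      refine ⟨l', h1, by simp only [List.length_cons]; omega, ?_⟩
      rw [List.prod_cons, h3, ← mul_assoc, hinv t (hl t (by simp)), one_mul]
    · obtain ⟨l', h1, h2, h3⟩ := ih (fun u hu => hl u (by simp [hu])) h
      refine ⟨t :: l', ?_, by simp; omega, by simp [h3]⟩
      intro u hu
      rcases List.mem_cons.1 hu with h' | h'
      · rw [h']; exact hl t (by simp)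
      · exact h1 u h'

include hinv hc in
theorem exists_nodup (l : List G) (hl : ∀ t ∈ l, t ∈ S) :
    ∃ l' : List G, (∀ t ∈ l', t ∈ S) ∧ l'.Nodup ∧ l.prod = l'.prod := by
  induction hn : l.length using Nat.strong_induction_on generalizing l with
  | _ n ih =>
    by_cases hd : l.Nodup
    · exact ⟨l, hl, hd, rfl⟩
    · obtain ⟨l', h1, h2, h3⟩ := shorten S hinv hc l hl hd
      obtain ⟨l'', h4, h5, h6⟩ := ih l'.length (hn ▸ h2) l' h1 rfl
      exact ⟨l'', h4, h5, h3.trans h6⟩

include hinv hc in
/-- **Dietzmann's lemma** for involutions: a finite normal set of involutions generates a finite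
subgroup. -/
theorem dietzmann (hS : S.Finite) : Finite (Subgroup.closure S) := by
  classical
  have hlists : {l : List G | (∀ t ∈ l, t ∈ S) ∧ l.Nodup}.Finite := by
    have : Finite S := hS.to_subtype
    have h1 : {l : List S | l.length ≤ Nat.card S}.Finite := List.finite_length_le _ _
    refine (h1.image (fun l => l.map Subtype.val)).subset ?_
    rintro l ⟨hl, hd⟩
    refine ⟨l.pmap (fun t ht => ⟨t, ht⟩) hl, ?_, ?_⟩
    · have hd' : (l.pmap (fun t ht => (⟨t, ht⟩ : S)) hl).Nodup := by
        refine List.Nodup.pmap ?_ hd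
        intro a ha b hb hab
        exact congrArg Subtype.val hab
      have := Fintype.ofFinite S
      rw [Set.mem_setOf_eq, Nat.card_eq_fintype_card]
      exact List.Nodup.length_le_card hd'
    · simp [List.map_pmap]
  have hsub : ((Subgroup.closure S : Subgroup G) : Set G) ⊆
      List.prod '' {l : List G | (∀ t ∈ l, t ∈ S) ∧ l.Nodup} := by
    intro x hx
    have hx' : ∃ l : List G, (∀ t ∈ l, t ∈ S) ∧ l.prod = x := by
      induction hx using Subgroup.closure_induction_right with
      | one => exact ⟨[], by simp, by simp⟩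
      | mul_right x _ y hy ih =>
        obtain ⟨l, h1, h2⟩ := ih
        refine ⟨l ++ [y], ?_, by simp [h2]⟩
        intro t ht
        rcases List.mem_append.1 ht with h | h
        · exact h1 t h
        · rw [List.mem_singleton.1 h]; exact hy
      | mul_inv_cancel x _ y hy ih =>
        obtain ⟨l, h1, h2⟩ := ih
        have hyy : y⁻¹ = y := inv_eq_of_mul_eq_one_right (hinv y hy)
        refine ⟨l ++ [y], ?_, by simp [h2, hyy]⟩
        intro t ht
        rcases List.mem_append.1 ht with h | h
        · exact h1 t h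
        · rw [List.mem_singleton.1 h]; exact hy
    obtain ⟨l, h1, h2⟩ := hx'
    obtain ⟨l', h3, h4, h5⟩ := exists_nodup S hinv hc l h1
    exact ⟨l', ⟨h3, h4⟩, by rw [← h5, h2]⟩
  exact ((hlists.image _).subset hsub).to_subtype

include hc in
theorem closure_normal : (Subgroup.closure S).Normal := by
  refine ⟨?_⟩
  intro n hn g
  induction hn using Subgroup.closure_induction with
  | mem x hx => exact Subgroup.subset_closure (hc g x hx)
  | one => simp [Subgroup.one_mem]
  | mul x y _ _ hx hy =>
    have := Subgroup.mul_mem _ hx hy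
    simpa [mul_assoc] using this
  | inv x _ hx =>
    have := Subgroup.inv_mem _ hx
    simpa [mul_assoc] using this

end Dietzmann

/-- extension of finite by finite -/
theorem finite_of_quot (N : Subgroup G) [Finite N] [Finite (G ⧸ N)] : Finite G :=
  Finite.of_equiv _ (Subgroup.groupEquivQuotientProdSubgroup (s := N)).symm

end Pool.Agent.Helper987.Cert24
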