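import Pool.Agent.Helper987.Check24
import Pool.Agent.Helper987.Grp24

/-! `Γ_{2,4}` is finite. -/

set_option autoImplicit false

namespace Pool.Agent.Helper987.Cert24

variable {G : Type*} [Group G]

/-- assignment of the four letters -/
def gen (a b c d : G) : Nat → G
  | 0 => a
  | 1 => b
  | 2 => c
  | _ => d

/-- the relations of `Γ_{2,4}` -/
structure Base (a b c : G) : Prop where
  a4 : a ^ 4 = 1
  b4 : b ^ 4 = 1
  c3 : c ^ 3 = 1
  ab : (a * b) ^ 2 = 1
  bc : (b * c) ^ 2 = 1
  abc : (a * b * c) ^ 2 = 1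
  T : (a⁻¹ * b) ^ 2 * (a * b⁻¹) ^ 4 = 1

theorem Base.map {H : Type*} [Group H] (f : G →* H) {a b c : G} (h : Base a b c) :
    Base (f a) (f b) (f c) := by
  refine ⟨?_, ?_, ?_, ?_, ?_, ?_, ?_⟩
  · rw [← map_pow, h.a4, map_one]
  · rw [← map_pow, h.b4, map_one]
  · rw [← map_pow, h.c3, map_one]
  · rw [← map_mul, ← map_pow, h.ab, map_one]
  · rw [← map_mul, ← map_pow, h.bc, map_one]
  · rw [← map_mul, ← map_mul, ← map_pow, h.abc, map_one]
  · have := congrArg f h.T
    simpa using this

theorem base_rels {a b c : G} (h : Base a b c) (d : G) :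
    ∀ r ∈ relsB, ev (gen a b c d) r = 1 := by
  obtain ⟨h1, h2, h3, h4, h5, h6, h7⟩ := h
  intro r hr
  simp only [relsB, List.mem_cons, List.not_mem_nil, or_false] at hr
  rcases hr with rfl | rfl | rfl | rfl | rfl | rfl | rfl
  · simpa [ev, evL, gen, pow_succ, mul_assoc] using h1
  · simpa [ev, evL, gen, pow_succ, mul_assoc] using h2
  · simpa [ev, evL, gen, pow_succ, mul_assoc] using h3
  · simpa [ev, evL, gen, pow_succ, mul_assoc] using h4
  · simpa [ev, evL, gen, pow_succ, mul_assoc] using h5
  · simpa [ev, evL, gen, pow_succ, mul_assoc] using h6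
  · simpa [ev, evL, gen, pow_succ, mul_assoc] using h7

/-- the translation `x` -/
def xw (a b : G) : G := a⁻¹ * b * a⁻¹ * b * a⁻¹ * b * a * b⁻¹

theorem ev_Xw (a b c d : G) : ev (gen a b c d) Xw = xw a b := by
  simp [ev, Xw, evL, gen, xw, mul_assoc]

theorem map_xw {H : Type*} [Group H] (f : G →* H) (a b : G) : f (xw a b) = xw (f a) (f b) := by
  simp [xw]

/-- the conjugate `y = c⁻¹ x c` -/
def yw (a b c : G) : G := c⁻¹ * xw a b * c

theorem ev_Yw (a b c d : G) : ev (gen a b c d) Yw = yw a b c := by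
  rw [Yw, ev_append, ev_append, ev_Xw]
  simp [evL, gen, yw]

theorem ev_subY (a b c d : G) (w : List L) :
    ev (gen a b c d) (w.flatMap subY) = ev (gen a b (yw a b c) d) w := by
  induction w with
  | nil => simp
  | cons l w ih =>
    rw [List.flatMap_cons, ev_append, ih, ev_cons]
    congr 1
    cases l <;> simp [subY, evL, gen, ev_Yw]

section facts

variable {a b c : G} (h : Base a b c)

include h

theorem f_x2 : xw a b * xw a b = 1 := by
  have := sound _ _ (base_rels h 1) _ _ k_x2
  simpa [ev_Xw] using this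

theorem f_xa : a⁻¹ * xw a b * a * (xw a b)⁻¹ = 1 := by
  have := sound _ _ (base_rels h 1) _ _ k_xa
  simpa only [ev_append, ev_invW, ev_Xw, ev_cons, ev_nil, mul_one, evL, gen] using this

theorem f_xb : b⁻¹ * xw a b * b * (xw a b)⁻¹ = 1 := by
  have := sound _ _ (base_rels h 1) _ _ k_xb
  simpa only [ev_append, ev_invW, ev_Xw, ev_cons, ev_nil, mul_one, evL, gen] using this

theorem f_yy : yw a b c * yw a b c = 1 := by
  have := sound _ _ (base_rels h 1) _ _ k_yy
  simpa only [ev_append, ev_Yw] using this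

theorem f_ya : a * yw a b c * a⁻¹ * (yw a b c)⁻¹ = 1 := by
  have := sound _ _ (base_rels h 1) _ _ k_ya
  simpa only [ev_append, ev_invW, ev_Yw, ev_cons, ev_nil, mul_one, evL, gen] using this

theorem f_w : c⁻¹ * yw a b c * c * b⁻¹ * (yw a b c)⁻¹ * b = 1 := by
  have := sound _ _ (base_rels h 1) _ _ k_w
  simpa only [ev_append, ev_invW, ev_Yw, ev_cons, ev_nil, mul_one, evL, gen] using this

theorem f_Q : ev (gen a b (yw a b c) 1) Qh = 1 := by
  have := sound _ _ (base_rels h 1) _ _ k_Q
  rwa [ev_subY] at this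

theorem f_R6 : ev (gen a b (yw a b c) 1) R6h = 1 := by
  have := sound _ _ (base_rels h 1) _ _ k_R6
  rwa [ev_subY] at this

theorem relsY_ok : ∀ r ∈ relsY, ev (gen a b (yw a b c) 1) r = 1 := by
  intro r hr
  simp only [relsY, List.mem_cons, List.not_mem_nil, or_false] at hr
  rcases hr with rfl | rfl | rfl | rfl | rfl | rfl | rfl | rfl
  · simpa [ev, evL, gen, pow_succ, mul_assoc] using h.a4
  · simpa [ev, evL, gen, pow_succ, mul_assoc] using h.b4
  · simpa [ev, evL, gen, pow_succ, mul_assoc] using h.ab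
  · simpa [ev, evL, gen, pow_succ, mul_assoc] using h.T
  · simpa [ev, evL, gen, pow_succ, mul_assoc] using f_yy h
  · simpa [ev, evL, gen, pow_succ, mul_assoc] using f_ya h
  · exact f_Q h
  · exact f_R6 h

end facts

/-- the element `D = x y x⁻¹ y` -/
def Dw (a b c : G) : G := xw a b * yw a b c * (xw a b)⁻¹ * yw a b c

theorem ev_DhY (a b c : G) : ev (gen a b (yw a b c) 1) DhY = Dw a b c := by
  simp only [DhY, ev_append, ev_invW, ev_Xw, ev_cons, ev_nil, mul_one, evL, gen, Dw]

section facts2

variable {a b c : G} (h : Base a b c)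

include h

theorem f_DD : Dw a b c * Dw a b c = 1 := by
  have := sound _ _ (relsY_ok h) _ _ k_I1
  rwa [ev_append, ev_DhY] at this

theorem f_I2 : yw a b c * (b⁻¹ * yw a b c * b) * (yw a b c)⁻¹ * (b⁻¹ * yw a b c * b) *
    (b⁻¹ * b⁻¹) * (Dw a b c)⁻¹ * (b * b) = 1 := by
  have := sound _ _ (relsY_ok h) _ _ k_I2
  simp only [ev_append, ev_invW, ev_DhY, ev_cons, ev_nil, mul_one, evL, gen] at this
  simpa only [mul_assoc] using this

/-- `a` commutes with `D` -/
theorem D_a : a * Dw a b c * a⁻¹ = Dw a b c := by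
  have h1 : a * xw a b * a⁻¹ = xw a b := by
    have := f_xa h
    rw [mul_inv_eq_one] at this
    nth_rw 1 [← this]
    group
  have h2 : a * yw a b c * a⁻¹ = yw a b c := by
    have := f_ya h
    rwa [mul_inv_eq_one] at this
  calc a * Dw a b c * a⁻¹ = (a * xw a b * a⁻¹) * (a * yw a b c * a⁻¹) * (a * xw a b * a⁻¹)⁻¹ *
      (a * yw a b c * a⁻¹) := by rw [Dw]; group
    _ = Dw a b c := by rw [h1, h2, Dw]

/-- `b * c` commutes with `D` -/
theorem D_bc : (b * c) * Dw a b c * (b * c)⁻¹ = Dw a b c := by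
  have hxb : b * xw a b * b⁻¹ = xw a b := by
    have := f_xb h
    rw [mul_inv_eq_one] at this
    nth_rw 1 [← this]
    group
  have hxb' : b⁻¹ * xw a b * b = xw a b := by
    have := f_xb h
    rwa [mul_inv_eq_one] at this
  have hbc : (b * c)⁻¹ = b * c := by
    have := h.bc
    rw [pow_two] at this
    exact inv_eq_of_mul_eq_one_right this
  -- conjugation by `(b c)⁻¹` on the left
  have e1 : (b * c)⁻¹ * xw a b * (b * c) = yw a b c := by
    calc (b * c)⁻¹ * xw a b * (b * c) = c⁻¹ * (b⁻¹ * xw a b * b) * c := by group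
      _ = yw a b c := by rw [hxb', yw]
  have e2 : (b * c) * xw a b * (b * c)⁻¹ = yw a b c := by
    rw [hbc] at e1 ⊢
    exact e1
  have e3 : (b * c) * yw a b c * (b * c)⁻¹ = xw a b := by
    rw [← e1]; group
  have hx : (xw a b)⁻¹ = xw a b := inv_eq_of_mul_eq_one_right (f_x2 h)
  have hy : (yw a b c)⁻¹ = yw a b c := inv_eq_of_mul_eq_one_right (f_yy h)
  have hD : (Dw a b c)⁻¹ = Dw a b c := inv_eq_of_mul_eq_one_right (f_DD h)
  calc (b * c) * Dw a b c * (b * c)⁻¹
      = ((b * c) * xw a b * (b * c)⁻¹) * ((b * c) * yw a b c * (b * c)⁻¹) *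
        ((b * c) * xw a b * (b * c)⁻¹)⁻¹ * ((b * c) * yw a b c * (b * c)⁻¹) := by
        rw [Dw]; group
    _ = yw a b c * xw a b * (yw a b c)⁻¹ * xw a b := by rw [e2, e3]
    _ = (Dw a b c)⁻¹ := by
        rw [Dw]
        simp only [mul_inv_rev, hx, hy, mul_assoc]
    _ = Dw a b c := hD

/-- `b * b * c⁻¹` commutes with `D` -/
theorem D_bbC : (b * b * c⁻¹) * Dw a b c * (b * b * c⁻¹)⁻¹ = Dw a b c := by
  have hw : c⁻¹ * yw a b c * c = b⁻¹ * yw a b c * b := by
    have := f_w h
    have h2 : c⁻¹ * yw a b c * c * (b⁻¹ * yw a b c * b)⁻¹ = 1 := by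
      rw [← this]; group
    exact mul_inv_eq_one.1 h2
  have hx : c⁻¹ * xw a b * c = yw a b c := rfl
  have e : c⁻¹ * Dw a b c * c = (b⁻¹ * b⁻¹) * Dw a b c * (b * b) := by
    have e1 : c⁻¹ * Dw a b c * c = yw a b c * (b⁻¹ * yw a b c * b) * (yw a b c)⁻¹ *
        (b⁻¹ * yw a b c * b) := by
      calc c⁻¹ * Dw a b c * c = (c⁻¹ * xw a b * c) * (c⁻¹ * yw a b c * c) *
          (c⁻¹ * xw a b * c)⁻¹ * (c⁻¹ * yw a b c * c) := by rw [Dw]; group
        _ = _ := by rw [hw, hx]
    have e2 := f_I2 h
    rw [← e1] at e2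
    have e3 : c⁻¹ * Dw a b c * c * ((b⁻¹ * b⁻¹) * Dw a b c * (b * b))⁻¹ = 1 := by
      rw [← e2]
      simp only [mul_inv_rev, mul_assoc, inv_inv]
    exact mul_inv_eq_one.1 e3
  have e' : c⁻¹ * Dw a b c * c⁻¹⁻¹ = (b⁻¹ * b⁻¹) * Dw a b c * (b * b) := by
    rw [inv_inv]; exact e
  calc (b * b * c⁻¹) * Dw a b c * (b * b * c⁻¹)⁻¹
      = (b * b) * (c⁻¹ * Dw a b c * c⁻¹⁻¹) * (b * b)⁻¹ := by group
    _ = Dw a b c := by rw [e']; group

theorem relsE_ok : ∀ r ∈ relsE, ev (gen a b c (Dw a b c)) r = 1 := by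
  intro r hr
  rw [relsE, List.mem_append] at hr
  rcases hr with hr | hr
  · exact base_rels h _ r hr
  · simp only [List.mem_cons, List.not_mem_nil, or_false] at hr
    rcases hr with rfl | rfl | rfl
    · have := D_a h
      rw [← mul_inv_eq_one] at this
      rw [← this]
      simp only [ev, List.map, List.prod_cons, List.prod_nil, evL, gen, mul_one, mul_assoc]
    · have := D_bc h
      rw [← mul_inv_eq_one] at this
      rw [← this]
      simp only [ev, List.map, List.prod_cons, List.prod_nil, evL, gen, mul_one, mul_assoc,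
        mul_inv_rev]
    · have := D_bbC h
      rw [← mul_inv_eq_one] at this
      rw [← this]
      simp only [ev, List.map, List.prod_cons, List.prod_nil, evL, gen, mul_one, mul_assoc,
        mul_inv_rev, inv_inv]

end facts2

/-- value of `conjW` -/
theorem ev_conjW (g : Nat → G) (ri rj : List L) (l : L) (hw : ev g (conjW ri l rj) = 1) :
    (evL g l)⁻¹ * ((ev g ri)⁻¹ * g 3 * ev g ri) * evL g l = (ev g rj)⁻¹ * g 3 * ev g rj := by
  simp only [conjW, ev_append, ev_invW, ev_cons, ev_nil, mul_one] at hw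
  rw [show evL g L.d = g 3 from rfl, show evL g L.D = (g 3)⁻¹ from rfl] at hw
  have : (evL g l)⁻¹ * ((ev g ri)⁻¹ * g 3 * ev g ri) * evL g l *
      ((ev g rj)⁻¹ * g 3 * ev g rj)⁻¹ = 1 := by
    rw [← hw]; group
  exact mul_inv_eq_one.1 this

theorem ev_cosW (g : Nat → G) (ri rj p : List L) (l : L) (hw : ev g (cosW ri l rj p) = 1) :
    ev g ri * evL g l * (ev g rj)⁻¹ = ev g p := by
  simp only [cosW, ev_append, ev_invW, ev_cons, ev_nil, mul_one] at hw
  exact mul_inv_eq_one.1 hw

theorem evL_gl (g : Nat → G) : ∀ k < 3, evL g (gl k) = g k := by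
  intro k hk
  interval_cases k <;> rfl

/-- from the tables to closedness under conjugation -/
theorem conj_of_table (g : Nat → G) (hgen : Subgroup.closure {g 0, g 1, g 2} = ⊤)
    (rels : List (List L)) (hrels : ∀ r ∈ rels, ev g r = 1) (n : ℕ) (reps : List (List L))
    (tab : List (List Nat)) (certs : List (List (List Nat)))
    (hk : (List.range n).all (fun i => (List.range 3).all (fun k =>
      check rels (conjW (reps.getD i []) (gl k) (reps.getD (tb tab i k) []))
        ((certs.getD i []).getD k []))) = true)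
    (ht : (List.range n).all (fun i => (List.range 3).all (fun k =>
      decide (tb tab i k < n) && (List.range n).any (fun j => decide (tb tab j k = i)))) = true) :
    ∀ x : G, ∀ i < n, ∃ j < n,
      x * ((ev g (reps.getD i []))⁻¹ * g 3 * ev g (reps.getD i [])) * x⁻¹ =
        (ev g (reps.getD j []))⁻¹ * g 3 * ev g (reps.getD j []) := by
  have hk' : ∀ i < n, ∀ k < 3,
      (g k)⁻¹ * ((ev g (reps.getD i []))⁻¹ * g 3 * ev g (reps.getD i [])) * g k =
        (ev g (reps.getD (tb tab i k) []))⁻¹ * g 3 * ev g (reps.getD (tb tab i k) []) := by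
    intro i hi k hk3
    have h1 := (List.all_eq_true.1 (List.all_eq_true.1 hk i (List.mem_range.2 hi))) k
      (List.mem_range.2 hk3)
    have h2 := sound g rels hrels _ _ h1
    have h3 := ev_conjW g _ _ _ h2
    rwa [evL_gl g k hk3] at h3
  have ht' : ∀ i < n, ∀ k < 3, tb tab i k < n ∧ ∃ j < n, tb tab j k = i := by
    intro i hi k hk3
    have h1 := (List.all_eq_true.1 (List.all_eq_true.1 ht i (List.mem_range.2 hi))) k
      (List.mem_range.2 hk3)
    rw [Bool.and_eq_true, decide_eq_true_eq, List.any_eq_true] at h1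
    obtain ⟨h2, j, hj, hj2⟩ := h1
    exact ⟨h2, j, List.mem_range.1 hj, by simpa using hj2⟩
  have hmem : ∀ σ ∈ ({g 0, g 1, g 2} : Set G), ∃ k < 3, σ = g k := by
    intro σ hσ
    simp only [Set.mem_insert_iff, Set.mem_singleton_iff] at hσ
    rcases hσ with rfl | rfl | rfl
    · exact ⟨0, by norm_num, rfl⟩
    · exact ⟨1, by norm_num, rfl⟩
    · exact ⟨2, by norm_num, rfl⟩
  refine conj_closed _ hgen n
    (fun i => (ev g (reps.getD i []))⁻¹ * g 3 * ev g (reps.getD i [])) ?_ ?_
  · intro i hi σ hσ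
    obtain ⟨k, hk3, rfl⟩ := hmem σ hσ
    exact ⟨tb tab i k, (ht' i hi k hk3).1, hk' i hi k hk3⟩
  · intro i hi σ hσ
    obtain ⟨k, hk3, rfl⟩ := hmem σ hσ
    obtain ⟨j, hj, hji⟩ := (ht' i hi k hk3).2
    refine ⟨j, hj, ?_⟩
    have := hk' j hj k hk3
    rwa [hji] at this

/-- The normal subgroup generated by the conjugates of `g 3`. -/
theorem exists_normal (g : Nat → G) (hgen : Subgroup.closure {g 0, g 1, g 2} = ⊤)
    (rels : List (List L)) (hrels : ∀ r ∈ rels, ev g r = 1) (n : ℕ) (hn : 0 < n)
    (reps : List (List L)) (hreps : reps.getD 0 [] = [])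
    (tab : List (List Nat)) (certs : List (List (List Nat)))
    (hk : (List.range n).all (fun i => (List.range 3).all (fun k =>
      check rels (conjW (reps.getD i []) (gl k) (reps.getD (tb tab i k) []))
        ((certs.getD i []).getD k []))) = true)
    (ht : (List.range n).all (fun i => (List.range 3).all (fun k =>
      decide (tb tab i k < n) && (List.range n).any (fun j => decide (tb tab j k = i)))) = true)
    (h3 : g 3 * g 3 = 1) :
    ∃ N : Subgroup G, N.Normal ∧ Finite N ∧ g 3 ∈ N := by
  have hc := conj_of_table g hgen rels hrels n reps tab certs hk ht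
  set s : ℕ → G := fun i => (ev g (reps.getD i []))⁻¹ * g 3 * ev g (reps.getD i []) with hs
  let S : Set G := s '' {i | i < n}
  have hSc : ∀ x : G, ∀ t ∈ S, x * t * x⁻¹ ∈ S := by
    rintro x t ⟨i, hi, rfl⟩
    obtain ⟨j, hj, hij⟩ := hc x i hi
    exact ⟨j, hj, hij.symm⟩
  have hSinv : ∀ t ∈ S, t * t = 1 := by
    rintro t ⟨i, hi, rfl⟩
    have : s i * s i = (ev g (reps.getD i []))⁻¹ * (g 3 * g 3) * ev g (reps.getD i []) := by
      rw [hs]; group
    rw [this, h3]; group
  have hSfin : S.Finite := (Set.finite_lt_nat n).image _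
  refine ⟨Subgroup.closure S, closure_normal S hSc, dietzmann S hSinv hSc hSfin, ?_⟩
  refine Subgroup.subset_closure ⟨0, hn, ?_⟩
  change (ev g (reps.getD 0 []))⁻¹ * g 3 * ev g (reps.getD 0 []) = g 3
  rw [hreps]
  simp

/-- letters `a`, `b` only -/
def isAB (w : List L) : Bool := w.all (fun l => decide (l = .a) || decide (l = .A) ||
  decide (l = .b) || decide (l = .B))

theorem ev_mem (g : Nat → G) (H : Subgroup G) (h0 : g 0 ∈ H) (h1 : g 1 ∈ H) (w : List L)
    (hw : isAB w = true) : ev g w ∈ H := by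
  induction w with
  | nil => simp
  | cons l w ih =>
    rw [isAB, List.all_cons, Bool.and_eq_true] at hw
    rw [ev_cons]
    refine H.mul_mem ?_ (ih hw.2)
    have := hw.1
    cases l <;> simp_all [evL]

/-- letter `b` only -/
def isB (w : List L) : Bool := w.all (fun l => decide (l = .b))

theorem ev_memB (g : Nat → G) (H : Subgroup G) (h1 : g 1 ∈ H) (w : List L)
    (hw : isB w = true) : ev g w ∈ H := by
  induction w with
  | nil => simp
  | cons l w ih =>
    rw [isB, List.all_cons, Bool.and_eq_true] at hw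
    rw [ev_cons]
    refine H.mul_mem ?_ (ih hw.2)
    have := hw.1
    cases l <;> simp_all [evL]

/-- from the tables to finiteness -/
theorem finite_of_table (g : Nat → G) (m : ℕ) (hm : m ≤ 3)
    (rels : List (List L)) (hrels : ∀ r ∈ rels, ev g r = 1) (n : ℕ) (hn : 0 < n)
    (reps : List (List L)) (hreps : reps.getD 0 [] = [])
    (tab : List (List Nat)) (lab : List (List (List L))) (certs : List (List (List Nat)))
    (hk : (List.range n).all (fun i => (List.range m).all (fun k =>
      check rels (cosW (reps.getD i []) (gl k) (reps.getD (tb tab i k) [])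
      ((lab.getD i []).getD k [])) ((certs.getD i []).getD k []))) = true)
    (ht : (List.range n).all (fun i => (List.range m).all (fun k =>
      decide (tb tab i k < n) && (List.range n).any (fun j => decide (tb tab j k = i)))) = true)
    (H : Subgroup G) [Finite H]
    (hH : ∀ i < n, ∀ k < m, ev g ((lab.getD i []).getD k []) ∈ H) :
    Finite (Subgroup.closure (g '' {k | k < m})) := by
  have hk' : ∀ i < n, ∀ k < m,
      ev g (reps.getD i []) * g k * (ev g (reps.getD (tb tab i k) []))⁻¹ ∈ H := by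
    intro i hi k hk3
    have h1 := (List.all_eq_true.1 (List.all_eq_true.1 hk i (List.mem_range.2 hi))) k
      (List.mem_range.2 hk3)
    have h2 := sound g rels hrels _ _ h1
    have h3 := ev_cosW g _ _ _ _ h2
    rw [evL_gl g k (by omega)] at h3
    rw [h3]
    exact hH i hi k hk3
  have ht' : ∀ i < n, ∀ k < m, tb tab i k < n ∧ ∃ j < n, tb tab j k = i := by
    intro i hi k hk3
    have h1 := (List.all_eq_true.1 (List.all_eq_true.1 ht i (List.mem_range.2 hi))) k
      (List.mem_range.2 hk3)
    rw [Bool.and_eq_true, decide_eq_true_eq, List.any_eq_true] at h1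
    obtain ⟨h2, j, hj, hj2⟩ := h1
    exact ⟨h2, j, List.mem_range.1 hj, by simpa using hj2⟩
  refine finite_closure_of_cosets H _ n (fun i => ev g (reps.getD i [])) hn
    (by rw [hreps]; rfl) ?_ ?_
  · rintro i hi _ ⟨k, hk3, rfl⟩
    exact ⟨tb tab i k, (ht' i hi k hk3).1, hk' i hi k hk3⟩
  · rintro i hi _ ⟨k, hk3, rfl⟩
    obtain ⟨j, hj, hji⟩ := (ht' i hi k hk3).2
    refine ⟨j, hj, ?_⟩
    have := hk' j hj k hk3
    rwa [hji] at this

theorem labP_ok : (List.range 10).all (fun i => (List.range 2).all (fun k =>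
    isB ((labP.getD i []).getD k []))) = true := by decide +kernel

theorem labC_ok : (List.range 18).all (fun i => (List.range 3).all (fun k =>
    isAB ((labC.getD i []).getD k []))) = true := by decide +kernel

/-- The last quotient is finite. -/
theorem finiteA (a b c : G) (hgen : Subgroup.closure {a, b, c} = ⊤) (h : Base a b c)
    (hx : xw a b = 1) : Finite G := by
  have hrels3 : ∀ r ∈ rels3, ev (gen a b c 1) r = 1 := by
    intro r hr
    rw [rels3, List.mem_append, List.mem_singleton] at hr
    rcases hr with hr | rfl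
    · exact base_rels h _ r hr
    · rw [ev_Xw, hx]
  have hrelsP : ∀ r ∈ relsP, ev (gen a b c 1) r = 1 := by
    intro r hr
    refine hrels3 r ?_
    revert r hr
    decide
  have hfb : Finite (Subgroup.zpowers b) := by
    have : IsOfFinOrder b := isOfFinOrder_iff_pow_eq_one.2 ⟨4, by norm_num, h.b4⟩
    exact this.finite_zpowers
  have hP : Finite (Subgroup.closure ((gen a b c 1) '' {k | k < 2})) := by
    refine finite_of_table (gen a b c 1) 2 (by norm_num) relsP hrelsP 10 (by norm_num) repsP rfl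
      tabP labP certP k_P t_P (Subgroup.zpowers b) ?_
    intro i hi k hk
    have h1 := (List.all_eq_true.1 (List.all_eq_true.1 labP_ok i (List.mem_range.2 hi))) k
      (List.mem_range.2 hk)
    exact ev_memB _ _ (Subgroup.mem_zpowers b) _ h1
  have h0 : gen a b c 1 0 ∈ Subgroup.closure ((gen a b c 1) '' {k | k < 2}) :=
    Subgroup.subset_closure ⟨0, by norm_num, rfl⟩
  have h1 : gen a b c 1 1 ∈ Subgroup.closure ((gen a b c 1) '' {k | k < 2}) :=
    Subgroup.subset_closure ⟨1, by norm_num, rfl⟩
  have hC : Finite (Subgroup.closure ((gen a b c 1) '' {k | k < 3})) := by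
    refine finite_of_table (gen a b c 1) 3 le_rfl rels3 hrels3 18 (by norm_num) repsC rfl
      tabC labC certC k_C t_C (Subgroup.closure ((gen a b c 1) '' {k | k < 2})) ?_
    intro i hi k hk
    have h2 := (List.all_eq_true.1 (List.all_eq_true.1 labC_ok i (List.mem_range.2 hi))) k
      (List.mem_range.2 hk)
    exact ev_mem _ _ h0 h1 _ h2
  have htop : Subgroup.closure ((gen a b c 1) '' {k | k < 3}) = ⊤ := by
    rw [eq_top_iff, ← hgen, Subgroup.closure_le]
    intro y hy
    simp only [Set.mem_insert_iff, Set.mem_singleton_iff] at hy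
    rcases hy with rfl | rfl | rfl
    · exact Subgroup.subset_closure ⟨0, by norm_num, rfl⟩
    · exact Subgroup.subset_closure ⟨1, by norm_num, rfl⟩
    · exact Subgroup.subset_closure ⟨2, by norm_num, rfl⟩
  rw [htop] at hC
  exact Finite.of_equiv _ Subgroup.topEquiv.toEquiv

/-- generation passes to quotients -/
theorem closure_quot {N : Subgroup G} [N.Normal] {a b c : G}
    (hgen : Subgroup.closure {a, b, c} = ⊤) :
    Subgroup.closure {(a : G ⧸ N), (b : G ⧸ N), (c : G ⧸ N)} = ⊤ := by
  have h1 : Subgroup.map (QuotientGroup.mk' N) (Subgroup.closure {a, b, c}) = ⊤ := by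
    rw [hgen]
    exact Subgroup.map_top_of_surjective _ (QuotientGroup.mk'_surjective N)
  rw [MonoidHom.map_closure] at h1
  rw [← h1]
  congr 1
  simp [Set.image_insert_eq]

/-- The middle quotient is finite. -/
theorem finiteB (a b c : G) (hgen : Subgroup.closure {a, b, c} = ⊤) (h : Base a b c)
    (hD : Dw a b c = 1) : Finite G := by
  have hx2 := f_x2 h
  have hrels : ∀ r ∈ relsX, ev (gen a b c (xw a b)) r = 1 := by
    intro r hr
    rw [relsX, List.mem_append] at hr
    rcases hr with hr | hr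
    · exact base_rels h _ r hr
    · simp only [List.mem_cons, List.not_mem_nil, or_false] at hr
      have hxa : a * xw a b * a⁻¹ = xw a b := by
        have := f_xa h
        rw [mul_inv_eq_one] at this
        nth_rw 1 [← this]
        group
      have hxb : b * xw a b * b⁻¹ = xw a b := by
        have := f_xb h
        rw [mul_inv_eq_one] at this
        nth_rw 1 [← this]
        group
      rcases hr with rfl | rfl | rfl | rfl | rfl
      · have : ev (gen a b c (xw a b)) (Xw ++ [.D]) = 1 := by
          rw [ev_append, ev_Xw]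
          simp [evL, gen]
        exact this
      · rw [← mul_inv_eq_one] at hxa
        rw [← hxa]
        simp only [ev, List.map, List.prod_cons, List.prod_nil, evL, gen, mul_one, mul_assoc]
      · rw [← mul_inv_eq_one] at hxb
        rw [← hxb]
        simp only [ev, List.map, List.prod_cons, List.prod_nil, evL, gen, mul_one, mul_assoc]
      · rw [← hx2]
        simp only [ev, List.map, List.prod_cons, List.prod_nil, evL, gen, mul_one]
      · have hy : (yw a b c)⁻¹ = yw a b c := inv_eq_of_mul_eq_one_right (f_yy h)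
        have : xw a b * yw a b c * (xw a b)⁻¹ * (yw a b c)⁻¹ = 1 := by
          rw [hy]; exact hD
        rw [← this]
        simp only [ev, List.map, List.prod_cons, List.prod_nil, evL, gen, mul_one, mul_assoc,
          yw, mul_inv_rev, inv_inv]
  obtain ⟨N, hN, hfin, hmem⟩ := exists_normal (gen a b c (xw a b)) hgen relsX hrels 18
    (by norm_num) repsX rfl tabX certX k_X t_X hx2
  have hq : Finite (G ⧸ N) := by
    refine finiteA (a : G ⧸ N) b c (closure_quot hgen) (h.map (QuotientGroup.mk' N)) ?_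
    have := map_xw (QuotientGroup.mk' N) a b
    rw [show xw (a : G ⧸ N) (b : G ⧸ N) = QuotientGroup.mk' N (xw a b) from this.symm]
    exact (QuotientGroup.eq_one_iff _).2 hmem
  exact finite_of_quot N

/-- **`Γ_{2,4}` is finite**: every group generated by three elements satisfying the relations is
finite. -/
theorem finiteC (a b c : G) (hgen : Subgroup.closure {a, b, c} = ⊤) (h : Base a b c) :
    Finite G := by
  obtain ⟨N, hN, hfin, hmem⟩ := exists_normal (gen a b c (Dw a b c)) hgen relsE (relsE_ok h) 5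
    (by norm_num) repsE rfl tabE certE k_E t_E (f_DD h)
  have hq : Finite (G ⧸ N) := by
    refine finiteB (a : G ⧸ N) b c (closure_quot hgen) (h.map (QuotientGroup.mk' N)) ?_
    have : QuotientGroup.mk' N (Dw a b c) = Dw (a : G ⧸ N) b c := by
      simp only [Dw, yw, map_mul, map_inv, map_xw]
      rfl
    rw [← this]
    exact (QuotientGroup.eq_one_iff _).2 hmem
  exact finite_of_quot N

end Pool.Agent.Helper987.Cert24
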